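import Pool.Agent.Work.MP_49847a_an.Tr.TrA

/-!
# Module TrCon: `{tr < 0}` is connected with boundary `{tr = 0}`

Proof.  For `x, y > 0` and `0 ≤ s ≤ 1`: `1 + x^s + y^s ≤ 3^(1-s) (1 + x + y)^s` (concavity of `t^s`; Mathlib: `Real.inner_le_Lp_mul_Lq`, or
`Real.rpow_arith_mean_le_arith_mean_rpow` with the exponent `1/s`; `s = 0` trivial).  So for `φ(x, y) = (1 + x + y)³/(x y)`: `φ(x^s, y^s) ≤ 27^(1-s) φ(x, y)^s`.
Let `z` be a point with `ev tr z ≤ 0`; then `z_0, z_1 ≠ 0` and `φ(‖z_0‖², ‖z_1‖²) ≤ 32`.  For `0 ≤ s < 1` let `z_s = (z_i ‖z_i‖^(s-1))_i`: `‖z_s,i‖² = (‖z_i‖²)^s`, and `φ ≤ 27^(1-s) 32^s < 32`,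
so `ev tr z_s < 0`; `z_s` depends continuously on `s`, `z_1 = z`, and `z_0` is in the torus `‖z_i‖ = 1`, which is contained in `{tr < 0}` (`27 < 32`) and path connected.
(connected) so every point of `{tr < 0}` can be joined in `{tr < 0}` to the torus (for `ev tr z < 0` also `s = 1` is allowed).
(frontier) `frontier_lt_subset_eq` and, for `tr z = 0`, `z = lim z_s` as `s → 1`, `z ∉ {tr < 0}` (open).
-/

namespace Pool.Agent.Work.MP_49847a_an

open MvPolynomial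

private lemma trc_cont : Continuous (ev tr) := by
  have h : (ev tr) = fun z : Fin 2 → ℂ => (1 + nn z) ^ 3 - 32 * (‖z 0‖ ^ 2 * ‖z 1‖ ^ 2) :=
    funext tr_ev
  rw [h]
  unfold nn
  fun_prop

private lemma trc_ev2 (z : Fin 2 → ℂ) :
    ev tr z = (1 + ‖z 0‖ ^ 2 + ‖z 1‖ ^ 2) ^ 3 - 32 * (‖z 0‖ ^ 2 * ‖z 1‖ ^ 2) := by
  rw [tr_ev]
  unfold nn
  rw [Fin.sum_univ_two, add_assoc]

private lemma trc_jensen {x y s : ℝ} (hx : 0 ≤ x) (hy : 0 ≤ y) (hs : 0 ≤ s) (hs1 : s ≤ 1) :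
    1 + x ^ s + y ^ s ≤ 3 * ((1 + x + y) / 3) ^ s := by
  have h := (Real.concaveOn_rpow hs hs1).le_map_sum (t := Finset.univ)
    (w := fun _ : Fin 3 => (1 / 3 : ℝ)) (p := ![1, x, y])
    (fun i _ => by norm_num) (by simp)
    (fun i _ => by
      fin_cases i
      · exact Set.mem_Ici.mpr zero_le_one
      · exact Set.mem_Ici.mpr hx
      · exact Set.mem_Ici.mpr hy)
  simp only [Fin.sum_univ_three, smul_eq_mul, Matrix.cons_val_zero, Matrix.cons_val_one,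
    Matrix.cons_val, Real.one_rpow] at h
  have h2 : (1 / 3 * 1 + 1 / 3 * x + 1 / 3 * y : ℝ) = (1 + x + y) / 3 := by ring
  rw [h2] at h
  linarith

private lemma trc_phi {x y s : ℝ} (hx : 0 < x) (hy : 0 < y) (hs : 0 ≤ s) (hs1 : s < 1)
    (h : (1 + x + y) ^ 3 ≤ 32 * (x * y)) : (1 + x ^ s + y ^ s) ^ 3 < 32 * (x ^ s * y ^ s) := by
  have h1 := trc_jensen hx.le hy.le hs hs1.le
  have hA : 0 < 1 + x + y := by positivity
  have h0 : 0 ≤ 1 + x ^ s + y ^ s := by positivity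
  have h2 : (1 + x ^ s + y ^ s) ^ 3 ≤ (3 * ((1 + x + y) / 3) ^ s) ^ 3 := pow_le_pow_left₀ h0 h1 3
  have h3 : (3 * ((1 + x + y) / 3) ^ s) ^ 3 = 27 * (((1 + x + y) ^ 3 / 27) ^ s) := by
    have h4 : (((1 + x + y) / 3) ^ s) ^ 3 = ((1 + x + y) ^ 3 / 27) ^ s := by
      rw [← Real.rpow_natCast, ← Real.rpow_mul (by positivity), mul_comm, Real.rpow_mul (by positivity)]
      congr 1
      rw [Real.rpow_natCast]
      ring
    rw [mul_pow, h4]
    norm_num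
  have h5 : ((1 + x + y) ^ 3 / 27) ^ s ≤ ((32 / 27) * (x * y)) ^ s := by
    refine Real.rpow_le_rpow (by positivity) ?_ hs
    linarith
  have h6 : ((32 / 27) * (x * y)) ^ s = (32 / 27 : ℝ) ^ s * (x ^ s * y ^ s) := by
    rw [Real.mul_rpow (by norm_num) (by positivity), Real.mul_rpow hx.le hy.le]
  have h7 : (32 / 27 : ℝ) ^ s < 32 / 27 := by
    have := Real.rpow_lt_rpow_of_exponent_lt (by norm_num : (1 : ℝ) < 32 / 27) hs1
    rwa [Real.rpow_one] at this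
  have h8 : 0 < x ^ s * y ^ s := by positivity
  calc (1 + x ^ s + y ^ s) ^ 3 ≤ 27 * (((1 + x + y) ^ 3 / 27) ^ s) := h2.trans h3.le
    _ ≤ 27 * ((32 / 27 : ℝ) ^ s * (x ^ s * y ^ s)) := by
        rw [← h6]
        exact mul_le_mul_of_nonneg_left h5 (by norm_num)
    _ < 27 * (32 / 27 * (x ^ s * y ^ s)) :=
        mul_lt_mul_of_pos_left (mul_lt_mul_of_pos_right h7 h8) (by norm_num)
    _ = 32 * (x ^ s * y ^ s) := by ring

/-- the path -/
private noncomputable def trcG (z : Fin 2 → ℂ) (s : ℝ) : Fin 2 → ℂ :=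
  fun i => z i * ((‖z i‖ ^ (s - 1) : ℝ) : ℂ)

private lemma trc_pos {z : Fin 2 → ℂ} (h : ev tr z ≤ 0) : ∀ i, 0 < ‖z i‖ := by
  rw [trc_ev2] at h
  have h1 : 0 < (1 + ‖z 0‖ ^ 2 + ‖z 1‖ ^ 2) ^ 3 := by positivity
  have h2 : 0 < ‖z 0‖ ^ 2 * ‖z 1‖ ^ 2 := by linarith
  intro i
  fin_cases i
  · by_contra hc
    have h3 : ‖z 0‖ = 0 := le_antisymm (not_lt.mp hc) (norm_nonneg _)
    rw [h3] at h2
    norm_num at h2
  · by_contra hc
    have h3 : ‖z 1‖ = 0 := le_antisymm (not_lt.mp hc) (norm_nonneg _)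
    rw [h3] at h2
    norm_num at h2

private lemma trcG_norm {z : Fin 2 → ℂ} (h : ∀ i, 0 < ‖z i‖) (s : ℝ) (i : Fin 2) :
    ‖trcG z s i‖ = ‖z i‖ ^ s := by
  unfold trcG
  rw [norm_mul, Complex.norm_real, Real.norm_of_nonneg (Real.rpow_nonneg (norm_nonneg _) _)]
  rw [Real.rpow_sub_one (h i).ne']
  field_simp [(h i).ne']

private lemma trcG_sq {z : Fin 2 → ℂ} (h : ∀ i, 0 < ‖z i‖) (s : ℝ) (i : Fin 2) :
    ‖trcG z s i‖ ^ 2 = (‖z i‖ ^ 2) ^ s := by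
  rw [trcG_norm h, ← Real.rpow_natCast, ← Real.rpow_mul (norm_nonneg _), mul_comm,
    Real.rpow_mul (norm_nonneg _), Real.rpow_natCast]

private lemma trcG_cont {z : Fin 2 → ℂ} (h : ∀ i, 0 < ‖z i‖) : Continuous (trcG z) := by
  refine continuous_pi fun i => ?_
  unfold trcG
  refine continuous_const.mul (Complex.continuous_ofReal.comp ?_)
  exact (Real.continuous_const_rpow (h i).ne').comp (continuous_id.sub continuous_const)

private lemma trcG_one (z : Fin 2 → ℂ) : trcG z 1 = z := by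
  funext i
  unfold trcG
  simp

private lemma trcG_mem {z : Fin 2 → ℂ} (h : ev tr z ≤ 0) {s : ℝ} (hs : 0 ≤ s) (hs1 : s < 1) :
    ev tr (trcG z s) < 0 := by
  have hp := trc_pos h
  rw [trc_ev2] at h ⊢
  rw [trcG_sq hp, trcG_sq hp]
  have h1 := trc_phi (x := ‖z 0‖ ^ 2) (y := ‖z 1‖ ^ 2) (pow_pos (hp 0) 2) (pow_pos (hp 1) 2) hs hs1
    (by linarith)
  linarith

private lemma trc_torus_sub : {z : Fin 2 → ℂ | ‖z 0‖ = 1 ∧ ‖z 1‖ = 1} ⊆ {z | ev tr z < 0} := by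
  rintro z ⟨h0, h1⟩
  show ev tr z < 0
  rw [trc_ev2, h0, h1]
  norm_num

private lemma trc_torus_conn : IsPreconnected {z : Fin 2 → ℂ | ‖z 0‖ = 1 ∧ ‖z 1‖ = 1} := by
  have h1 : {z : Fin 2 → ℂ | ‖z 0‖ = 1 ∧ ‖z 1‖ = 1} =
      Set.range (fun p : ℝ × ℝ => (![Complex.exp (p.1 * Complex.I), Complex.exp (p.2 * Complex.I)] :
        Fin 2 → ℂ)) := by
    ext z
    constructor
    · rintro ⟨h0, h1⟩
      obtain ⟨a, ha⟩ := (Complex.norm_eq_one_iff _).mp h0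
      obtain ⟨b, hb⟩ := (Complex.norm_eq_one_iff _).mp h1
      refine ⟨(a, b), ?_⟩
      funext i
      fin_cases i
      · exact ha
      · exact hb
    · rintro ⟨p, rfl⟩
      exact ⟨Complex.norm_exp_ofReal_mul_I _, Complex.norm_exp_ofReal_mul_I _⟩
  rw [h1]
  refine isPreconnected_range (continuous_pi fun i => ?_)
  fin_cases i
  · show Continuous fun p : ℝ × ℝ => Complex.exp (p.1 * Complex.I)
    fun_prop
  · show Continuous fun p : ℝ × ℝ => Complex.exp (p.2 * Complex.I)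
    fun_prop

theorem tr_connected : IsConnected {z : Fin 2 → ℂ | ev tr z < 0} := by
  have hb : (fun _ => 1 : Fin 2 → ℂ) ∈ {z : Fin 2 → ℂ | ‖z 0‖ = 1 ∧ ‖z 1‖ = 1} := by
    constructor <;> simp
  refine ⟨⟨_, trc_torus_sub hb⟩, ?_⟩
  refine isPreconnected_of_forall (fun _ => 1 : Fin 2 → ℂ) ?_
  intro z hz
  have hz' : ev tr z < 0 := hz
  have hp := trc_pos hz'.le
  have h0 : trcG z 0 ∈ {z : Fin 2 → ℂ | ‖z 0‖ = 1 ∧ ‖z 1‖ = 1} := by
    constructor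
    · rw [trcG_norm hp, Real.rpow_zero]
    · rw [trcG_norm hp, Real.rpow_zero]
  refine ⟨{z : Fin 2 → ℂ | ‖z 0‖ = 1 ∧ ‖z 1‖ = 1} ∪ trcG z '' Set.Icc 0 1, ?_, Or.inl hb,
    Or.inr ⟨1, ⟨zero_le_one, le_rfl⟩, trcG_one z⟩, ?_⟩
  · refine Set.union_subset trc_torus_sub ?_
    rintro _ ⟨s, hs, rfl⟩
    rcases hs.2.lt_or_eq with h | h
    · exact trcG_mem hz'.le hs.1 h
    · rw [h, trcG_one]
      exact hz
  · exact IsPreconnected.union (trcG z 0) h0 ⟨0, ⟨le_rfl, zero_le_one⟩, rfl⟩ trc_torus_conn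
      (isPreconnected_Icc.image _ (trcG_cont hp).continuousOn)

theorem tr_frontier : frontier {z : Fin 2 → ℂ | ev tr z < 0} = ZZ tr := by
  have hopen : IsOpen {z : Fin 2 → ℂ | ev tr z < 0} := isOpen_lt trc_cont continuous_const
  refine Set.Subset.antisymm ?_ ?_
  · exact frontier_lt_subset_eq trc_cont continuous_const
  · intro z hz
    have hz' : ev tr z = 0 := hz
    have hp := trc_pos hz'.le
    rw [hopen.frontier_eq]
    refine ⟨?_, fun h => ?_⟩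
    · have h1 : z ∈ trcG z '' closure (Set.Ico (0 : ℝ) 1) := by
        rw [closure_Ico (by norm_num : (0 : ℝ) ≠ 1)]
        exact ⟨1, ⟨zero_le_one, le_rfl⟩, trcG_one z⟩
      have h2 := image_closure_subset_closure_image (trcG_cont hp) h1
      refine closure_mono ?_ h2
      rintro _ ⟨s, hs, rfl⟩
      exact trcG_mem hz'.le hs.1 hs.2
    · have h3 : ev tr z < 0 := h
      linarith

end Pool.Agent.Work.MP_49847a_an
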