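import Pool.Agent.Work.MP_49847a_an.Tr.TrA

/-!
# Module TrGro: behaviour at infinity

Proof.  Let `N = nn z`.  `‖z_0‖² ‖z_1‖² ≤ N²/4` (AM-GM), so `ev tr z ≥ (1 + N)³ - 8 N² ≥ N³/2` for `N ≥ 10` (`(1+N)³ = N³ + 3 N² + 3 N + 1`, and `5 N² ≤ N³/2` for `N ≥ 10`).
`‖pol tr z w‖ ≤ (1 + √N √(nn w))³ + 32 N nn w ≤ C_w (1 + N)^(3/2)`: `‖pol‖² ≤ C_w' (1 + N)³ ≤ C_w'' N³ ≤ 2 C_w'' ev tr z` for `N ≥ 10` (`‖1 + ip z w‖² ≤ (1 + nn z)(1 + nn w)`,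
`‖z_i conj w_i‖² ≤ nn z nn w`).
-/

namespace Pool.Agent.Work.MP_49847a_an

open MvPolynomial

private theorem nn2 (z : Fin 2 → ℂ) : nn z = ‖z 0‖ ^ 2 + ‖z 1‖ ^ 2 := by
  unfold nn; rw [Fin.sum_univ_two]

private theorem ev_low (z : Fin 2 → ℂ) (h : 10 ≤ nn z) : nn z ^ 3 / 2 ≤ ev tr z := by
  rw [tr_ev]
  have h1 : ‖z 0‖ ^ 2 * ‖z 1‖ ^ 2 ≤ nn z ^ 2 / 4 := by
    rw [nn2]; nlinarith [sq_nonneg (‖z 0‖ ^ 2 - ‖z 1‖ ^ 2)]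
  have h2 : 0 ≤ nn z ^ 2 * (nn z - 10) := mul_nonneg (sq_nonneg _) (by linarith)
  nlinarith

private theorem cs3 (x y p q : ℝ) : (1 + x * p + y * q) ^ 2 ≤ (1 + (x ^ 2 + y ^ 2)) * (1 + (p ^ 2 + q ^ 2)) := by
  nlinarith [sq_nonneg (x - p), sq_nonneg (y - q), sq_nonneg (x * q - y * p)]

theorem tr_posInf : PosInf tr := by
  refine ⟨10, fun z hz => ?_⟩
  have h1 := ev_low z hz
  have h2 : 0 < nn z ^ 3 := by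
    have : 0 < nn z := by linarith
    positivity
  linarith

theorem tr_growth : Growth tr := by
  intro w
  refine ⟨6 * (1 + nn w) ^ 3 + 500 * nn w ^ 2, 10, fun z hz => ?_⟩
  have hlow := ev_low z hz
  have hz0 : 0 ≤ nn z := by linarith
  have hw0 : 0 ≤ nn w := by rw [nn2]; positivity
  have hA : ‖1 + ip z w‖ ^ 2 ≤ (1 + nn z) * (1 + nn w) := by
    have h1 : ‖1 + ip z w‖ ≤ 1 + ‖z 0‖ * ‖w 0‖ + ‖z 1‖ * ‖w 1‖ := by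
      unfold ip
      rw [Fin.sum_univ_two]
      calc ‖1 + (z 0 * (starRingEnd ℂ) (w 0) + z 1 * (starRingEnd ℂ) (w 1))‖
          ≤ ‖(1 : ℂ)‖ + ‖z 0 * (starRingEnd ℂ) (w 0) + z 1 * (starRingEnd ℂ) (w 1)‖ := norm_add_le _ _
        _ ≤ ‖(1 : ℂ)‖ + (‖z 0 * (starRingEnd ℂ) (w 0)‖ + ‖z 1 * (starRingEnd ℂ) (w 1)‖) := by
            gcongr; exact norm_add_le _ _
        _ = 1 + ‖z 0‖ * ‖w 0‖ + ‖z 1‖ * ‖w 1‖ := by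
            rw [norm_mul, norm_mul, RCLike.norm_conj, RCLike.norm_conj, norm_one]; ring
    calc ‖1 + ip z w‖ ^ 2 ≤ (1 + ‖z 0‖ * ‖w 0‖ + ‖z 1‖ * ‖w 1‖) ^ 2 :=
          pow_le_pow_left₀ (norm_nonneg _) h1 2
      _ ≤ _ := by rw [nn2, nn2]; exact cs3 _ _ _ _
  have hB : ‖z 0 * (starRingEnd ℂ) (w 0) * (z 1 * (starRingEnd ℂ) (w 1))‖ ≤ nn z * nn w := by
    rw [norm_mul, norm_mul, norm_mul, RCLike.norm_conj, RCLike.norm_conj, nn2, nn2]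
    have h1 : ‖z 0‖ * ‖z 1‖ ≤ ‖z 0‖ ^ 2 + ‖z 1‖ ^ 2 := by
      nlinarith [sq_nonneg (‖z 0‖ - ‖z 1‖), sq_nonneg ‖z 0‖, sq_nonneg ‖z 1‖]
    have h2 : ‖w 0‖ * ‖w 1‖ ≤ ‖w 0‖ ^ 2 + ‖w 1‖ ^ 2 := by
      nlinarith [sq_nonneg (‖w 0‖ - ‖w 1‖), sq_nonneg ‖w 0‖, sq_nonneg ‖w 1‖]
    calc ‖z 0‖ * ‖w 0‖ * (‖z 1‖ * ‖w 1‖) = (‖z 0‖ * ‖z 1‖) * (‖w 0‖ * ‖w 1‖) := by ring
      _ ≤ _ := mul_le_mul h1 h2 (by positivity) (by positivity)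
  have hC : ‖pol tr z w‖ ≤ ‖1 + ip z w‖ ^ 3 + 32 * (nn z * nn w) := by
    rw [tr_pol]
    calc ‖(1 + ip z w) ^ 3 - 32 * (z 0 * (starRingEnd ℂ) (w 0) * (z 1 * (starRingEnd ℂ) (w 1)))‖
        ≤ ‖(1 + ip z w) ^ 3‖ + ‖32 * (z 0 * (starRingEnd ℂ) (w 0) * (z 1 * (starRingEnd ℂ) (w 1)))‖ := norm_sub_le _ _
      _ ≤ ‖1 + ip z w‖ ^ 3 + 32 * (nn z * nn w) := by
          rw [norm_pow, norm_mul]
          have : ‖(32 : ℂ)‖ = 32 := by norm_num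
          rw [this]
          gcongr
  have hA3 : (‖1 + ip z w‖ ^ 3) ^ 2 ≤ (1 + nn z) ^ 3 * (1 + nn w) ^ 3 := by
    calc (‖1 + ip z w‖ ^ 3) ^ 2 = (‖1 + ip z w‖ ^ 2) ^ 3 := by ring
      _ ≤ ((1 + nn z) * (1 + nn w)) ^ 3 := pow_le_pow_left₀ (by positivity) hA 3
      _ = _ := by ring
  have hD : ‖pol tr z w‖ ^ 2 ≤ 2 * ((1 + nn z) ^ 3 * (1 + nn w) ^ 3) + 2048 * (nn z ^ 2 * nn w ^ 2) := by
    calc ‖pol tr z w‖ ^ 2 ≤ (‖1 + ip z w‖ ^ 3 + 32 * (nn z * nn w)) ^ 2 :=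
          pow_le_pow_left₀ (norm_nonneg _) hC 2
      _ ≤ 2 * (‖1 + ip z w‖ ^ 3) ^ 2 + 2 * (32 * (nn z * nn w)) ^ 2 := by
          nlinarith [sq_nonneg (‖1 + ip z w‖ ^ 3 - 32 * (nn z * nn w))]
      _ ≤ _ := by nlinarith [hA3]
  have hE : (1 + nn z) ^ 3 ≤ 7 / 5 * nn z ^ 3 := by
    nlinarith [mul_nonneg hz0 (by linarith : (0:ℝ) ≤ nn z - 10), mul_nonneg (sq_nonneg (nn z)) (by linarith : (0:ℝ) ≤ nn z - 10)]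
  have hF : nn z ^ 2 ≤ nn z ^ 3 / 10 := by
    nlinarith [mul_nonneg (sq_nonneg (nn z)) (by linarith : (0:ℝ) ≤ nn z - 10)]
  have hw3 : 0 ≤ (1 + nn w) ^ 3 := by positivity
  have hz3 : 0 ≤ nn z ^ 3 := by positivity
  calc ‖pol tr z w‖ ^ 2 ≤ 2 * ((1 + nn z) ^ 3 * (1 + nn w) ^ 3) + 2048 * (nn z ^ 2 * nn w ^ 2) := hD
    _ ≤ 2 * ((7 / 5 * nn z ^ 3) * (1 + nn w) ^ 3) + 2048 * ((nn z ^ 3 / 10) * nn w ^ 2) := by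
        gcongr
    _ ≤ (6 * (1 + nn w) ^ 3 + 500 * nn w ^ 2) * (nn z ^ 3 / 2) := by
        nlinarith [mul_nonneg hz3 hw3, mul_nonneg hz3 (sq_nonneg (nn w))]
    _ ≤ _ := by
        apply mul_le_mul_of_nonneg_left hlow
        positivity

end Pool.Agent.Work.MP_49847a_an
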