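import Pool.Agent.Work.MP_49847a_an.Tr.TrA

/-!
# Module TrLev: Levi form and differential

Proof.  Let `A = 1 + nn a`, `B = ‖a_0 a_1‖²`, `A³ = 32 B` (`tr_ev`), so `a_0 a_1 ≠ 0`.  Put `u = ∑ conj(a_i) v_i`, `b = a_1 v_0 + a_0 v_1`.
(levi) `tr_dz = 0`: `3 A² u = 32 conj(a_0 a_1) b`.  Multiply norms: `9 A⁴ ‖u‖² = 32² B ‖b‖² = 32 A³ ‖b‖²`, so `32 ‖b‖² = 9 A ‖u‖²`.  By `tr_lev` the Levi form is
`3 A² nn v + 6 A ‖u‖² - 9 A ‖u‖² = 3 A (A nn v - ‖u‖²) = 3 A (nn v + nn a nn v - ‖u‖²) ≥ 3 A nn v > 0` (Cauchy-Schwarz `‖u‖² ≤ nn a nn v`, `ip_cs`).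
(regular) If all `dz tr i a = 0`, `tr_dz` with `v = e_0`, `e_1`: `3 A² conj(a_0) = 32 conj(a_0) conj(a_1) a_1`, so `3 A² = 32 ‖a_1‖²`, and `3 A² = 32 ‖a_0‖²`; with `A³ = 32 ‖a_0‖² ‖a_1‖²`:
`32 A³ = 9 A⁴`, `A = 32/9`, but `A = 1 + 2 · 3 A²/32`: `A = 1 + 3 A²/16`, for `A = 32/9`: `32/9` against `1 + 64/27 = 91/27`, `96/27 ≠ 91/27`.
-/

namespace Pool.Agent.Work.MP_49847a_an

open MvPolynomial

private theorem lev_nn (a : Fin 2 → ℂ) : nn a = ‖a 0‖ ^ 2 + ‖a 1‖ ^ 2 := by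
  unfold nn
  rw [Fin.sum_univ_two]

private theorem lev_nn0 (a : Fin 2 → ℂ) : 0 ≤ nn a := by
  rw [lev_nn]
  positivity

private theorem lev_eq {a : Fin 2 → ℂ} (ha : a ∈ ZZ tr) :
    (1 + nn a) ^ 3 = 32 * (‖a 0‖ ^ 2 * ‖a 1‖ ^ 2) := by
  have h : ev tr a = 0 := ha
  rw [tr_ev] at h
  linarith

theorem tr_levi : LeviPos tr := by
  intro a ha v hv h
  have h1 := lev_eq ha
  rw [tr_dz] at h
  rw [tr_lev]
  obtain ⟨A, hA⟩ : ∃ A, A = 1 + nn a := ⟨_, rfl⟩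
  have hA1 : 1 ≤ A := by
    rw [hA]
    linarith [lev_nn0 a]
  obtain ⟨u, hu⟩ : ∃ u, u = ∑ i, (starRingEnd ℂ) (a i) * v i := ⟨_, rfl⟩
  obtain ⟨b, hb⟩ : ∃ b, b = a 1 * v 0 + a 0 * v 1 := ⟨_, rfl⟩
  have hvn : 0 < nn v := by
    rw [lev_nn]
    by_contra hcon
    apply hv
    have h0 : ‖v 0‖ ^ 2 = 0 := by nlinarith [sq_nonneg ‖v 0‖, sq_nonneg ‖v 1‖]
    have h0' : ‖v 1‖ ^ 2 = 0 := by nlinarith [sq_nonneg ‖v 0‖, sq_nonneg ‖v 1‖]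
    funext i
    fin_cases i
    · exact norm_eq_zero.1 (pow_eq_zero_iff (two_ne_zero)|>.1 h0)
    · exact norm_eq_zero.1 (pow_eq_zero_iff (two_ne_zero)|>.1 h0')
  have hcs : ‖u‖ ^ 2 ≤ nn v * nn a := by
    have h2 := ip_cs v a
    have h3 : ip v a = u := by
      rw [hu]
      unfold ip
      exact Finset.sum_congr rfl fun i _ => mul_comm _ _
    rwa [h3] at h2
  rw [← hu, ← hb] at h
  rw [← hu, ← hb, ← hA]
  rw [← hA] at h1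
  have h2 : 3 * ((A : ℝ) : ℂ) ^ 2 * u = 32 * ((starRingEnd ℂ) (a 0) * (starRingEnd ℂ) (a 1)) * b := by
    have h3 : (1 + ((nn a : ℝ) : ℂ)) = ((A : ℝ) : ℂ) := by
      rw [hA]
      push_cast
      rfl
    rw [h3] at h
    exact sub_eq_zero.1 h
  have h3 : (3 * A ^ 2 * ‖u‖) ^ 2 = (32 * (‖a 0‖ * ‖a 1‖) * ‖b‖) ^ 2 := by
    have h4 := congrArg norm h2
    rw [norm_mul, norm_mul, norm_mul, norm_mul, norm_mul, RCLike.norm_conj, RCLike.norm_conj,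
      norm_pow, Complex.norm_real, Real.norm_of_nonneg (by linarith : (0 : ℝ) ≤ A)] at h4
    have h5 : ‖(3 : ℂ)‖ = 3 := by simp
    have h6 : ‖(32 : ℂ)‖ = 32 := by simp
    rw [h5, h6] at h4
    rw [h4]
  have h4 : 32 * ‖b‖ ^ 2 = 9 * A * ‖u‖ ^ 2 := by
    have h5 : 9 * A ^ 4 * ‖u‖ ^ 2 = 32 * ‖b‖ ^ 2 * A ^ 3 := by
      have h6 : 32 * ‖b‖ ^ 2 * A ^ 3 = (32 * (‖a 0‖ * ‖a 1‖) * ‖b‖) ^ 2 := by
        rw [h1]
        ring
      rw [h6, ← h3]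
      ring
    have h7 : A ^ 3 * (32 * ‖b‖ ^ 2) = A ^ 3 * (9 * A * ‖u‖ ^ 2) := by
      linear_combination -h5
    exact mul_left_cancel₀ (pow_ne_zero 3 (by linarith : A ≠ 0)) h7
  rw [h4]
  have h5 : 3 * A ^ 2 * nn v + 6 * A * ‖u‖ ^ 2 - 9 * A * ‖u‖ ^ 2 = 3 * A * (A * nn v - ‖u‖ ^ 2) := by
    ring
  rw [h5]
  have h6 : 0 < A * nn v - ‖u‖ ^ 2 := by
    rw [hA]
    nlinarith
  positivity

theorem tr_regular : Regular tr := by
  intro a ha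
  have h1 := lev_eq ha
  by_contra hcon
  push Not at hcon
  obtain ⟨A, hA⟩ : ∃ A, A = 1 + nn a := ⟨_, rfl⟩
  have hA1 : 1 ≤ A := by
    rw [hA]
    linarith [lev_nn0 a]
  rw [← hA] at h1
  have hA3 : 0 < A ^ 3 := by positivity
  have h0 : ∀ v : Fin 2 → ℂ, 3 * ((A : ℝ) : ℂ) ^ 2 * ∑ i, (starRingEnd ℂ) (a i) * v i =
      32 * ((starRingEnd ℂ) (a 0) * (starRingEnd ℂ) (a 1)) * (a 1 * v 0 + a 0 * v 1) := by
    intro v
    have h2 := tr_dz a v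
    have h3 : (1 + ((nn a : ℝ) : ℂ)) = ((A : ℝ) : ℂ) := by
      rw [hA]
      push_cast
      rfl
    rw [h3] at h2
    have h4 : ∑ i, dz tr i a * v i = 0 := Finset.sum_eq_zero fun i _ => by rw [hcon i, zero_mul]
    rw [h4] at h2
    exact (sub_eq_zero.1 h2.symm)
  have hnz : ‖a 0‖ ^ 2 ≠ 0 ∧ ‖a 1‖ ^ 2 ≠ 0 := by
    constructor
    · intro h
      rw [h] at h1
      linarith
    · intro h
      rw [h] at h1
      linarith
  have ha0 : (starRingEnd ℂ) (a 0) ≠ 0 := by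
    intro h
    apply hnz.1
    rw [← RCLike.norm_conj (a 0), h]
    simp
  have ha1 : (starRingEnd ℂ) (a 1) ≠ 0 := by
    intro h
    apply hnz.2
    rw [← RCLike.norm_conj (a 1), h]
    simp
  have e0 : 3 * A ^ 2 = 32 * ‖a 1‖ ^ 2 := by
    have h2 := h0 ![1, 0]
    simp only [Fin.sum_univ_two, Matrix.cons_val_zero, Matrix.cons_val_one, mul_one, mul_zero,
      add_zero] at h2
    have h3 : (starRingEnd ℂ) (a 0) * (3 * ((A : ℝ) : ℂ) ^ 2) =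
        (starRingEnd ℂ) (a 0) * (32 * (a 1 * (starRingEnd ℂ) (a 1))) := by
      linear_combination h2
    have h4 := mul_left_cancel₀ ha0 h3
    rw [Complex.mul_conj, Complex.normSq_eq_norm_sq] at h4
    exact_mod_cast h4
  have e1 : 3 * A ^ 2 = 32 * ‖a 0‖ ^ 2 := by
    have h2 := h0 ![0, 1]
    simp only [Fin.sum_univ_two, Matrix.cons_val_zero, Matrix.cons_val_one, mul_one, mul_zero,
      zero_add] at h2
    have h3 : (starRingEnd ℂ) (a 1) * (3 * ((A : ℝ) : ℂ) ^ 2) =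
        (starRingEnd ℂ) (a 1) * (32 * (a 0 * (starRingEnd ℂ) (a 0))) := by
      linear_combination h2
    have h4 := mul_left_cancel₀ ha1 h3
    rw [Complex.mul_conj, Complex.normSq_eq_norm_sq] at h4
    exact_mod_cast h4
  have e2 : A = 1 + 3 * A ^ 2 / 16 := by
    have h2 : A = 1 + (‖a 0‖ ^ 2 + ‖a 1‖ ^ 2) := by
      rw [hA, lev_nn]
    linarith
  have e3 : A = 32 / 9 := by
    have h2 : A ^ 3 * (32 - 9 * A) = 0 := by
      have h3 : 32 * A ^ 3 = (32 * ‖a 0‖ ^ 2) * (32 * ‖a 1‖ ^ 2) := by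
        rw [h1]
        ring
      rw [← e0, ← e1] at h3
      linear_combination h3
    rcases mul_eq_zero.1 h2 with h3 | h3
    · exact absurd h3 hA3.ne'
    · linarith
  rw [e3] at e2
  norm_num at e2

end Pool.Agent.Work.MP_49847a_an
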