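import Pool.Agent.Work.MP_49847a_an.Tr.TrA

/-!
# Module TrNot: the property fails

Proof.  `8 t³ - 20 t² + 6 t + 1 = (2 t - 1)(4 t² - 8 t - 1)`: `(1 + 2 t)³ = 32 t²` for `t = 1/2` and for `t₁ = 1 + √5/2`.  So the tori `‖z_0‖² = ‖z_1‖² = t` with
`t = 1/2`, `t = t₁` are contained in `ZZ tr`.  Let `R = 1 + (‖z_0‖² + ‖z_1‖² - 2 t₁)²`, a real polynomial, positive everywhere.  Suppose `ev R z = nrm p z` on `ZZ tr`.
Let `b = (√t₁, √t₁)`, `a = λ b`, `λ = √(1/2)/√t₁ < 1`, so `‖a_i‖² = 1/2`.  For `ζ` with `‖ζ‖ = 1`, `ζ b ∈ ZZ tr` and `nrm p (ζ b) = ev R (ζ b) = 1`.  The function `ζ ↦ q(ζ) = ∑_j p_j(ζ b) conj(p_j(a))` is a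
polynomial in `ζ`, `‖q(ζ)‖ ≤ √(nrm p (ζ b)) √(nrm p a) = √(nrm p a)` for `‖ζ‖ = 1`, so by the maximum principle (`Complex.norm_le_of_forall_mem_frontier_norm_le` on the unit disc)
`nrm p a = ‖q(λ)‖ ≤ √(nrm p a)`, so `nrm p a ≤ 1`.  (Or: `a ∈ hull {ζ b}` and `nrm_hull`.)  But `nrm p a = ev R a = 1 + (1 - 2 t₁)² > 1`.
(compact) `ZZ tr` is closed and contained in `{nn z ≤ 10}`: `ev tr z ≥ (1 + N)³ - 8 N² > 0` for `N = nn z ≥ 10`.
-/

namespace Pool.Agent.Work.MP_49847a_an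

open MvPolynomial

private noncomputable def trN_R (t : ℝ) : MvPolynomial (Fin 2 ⊕ Fin 2) ℝ :=
  1 + (∑ i, (X (Sum.inl i) ^ 2 + X (Sum.inr i) ^ 2) - C (2 * t)) ^ 2

private theorem trN_ev (t : ℝ) (z : Fin 2 → ℂ) : ev (trN_R t) z = 1 + (nn z - 2 * t) ^ 2 := by
  unfold ev trN_R nn
  simp only [map_add, map_sum, map_sub, map_pow, eval_X, eval_C, Sum.elim_inl, Sum.elim_inr,
    map_one]
  have h : ∀ i, (z i).re ^ 2 + (z i).im ^ 2 = ‖z i‖ ^ 2 := fun i => by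
    rw [← Complex.normSq_eq_norm_sq, Complex.normSq_apply]
    ring
  rw [Finset.sum_congr rfl fun i _ => h i]

private theorem trN_mem {t : ℝ} (ht : (1 + 2 * t) ^ 3 = 32 * t ^ 2) {z : Fin 2 → ℂ}
    (h0 : ‖z 0‖ ^ 2 = t) (h1 : ‖z 1‖ ^ 2 = t) : z ∈ ZZ tr ∧ nn z = 2 * t := by
  have hn : nn z = 2 * t := by
    unfold nn
    rw [Fin.sum_univ_two, h0, h1]
    ring
  refine ⟨?_, hn⟩
  show ev tr z = 0
  rw [tr_ev, hn, h0, h1, ht]
  ring

private theorem trN_hull {b : Fin 2 → ℂ} {l : ℝ} (hl0 : 0 ≤ l) (hl1 : l ≤ 1) :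
    ((l : ℂ) • b) ∈ hull {z : Fin 2 → ℂ | ∃ ζ : ℂ, ‖ζ‖ = 1 ∧ z = ζ • b} := by
  intro p c hc
  have hd : Differentiable ℂ fun ζ : ℂ => eval (ζ • b) p := by
    have h1 : (fun ζ : ℂ => eval (ζ • b) p) =
        fun ζ : ℂ => ((aeval fun i => Polynomial.X * Polynomial.C (b i)) p).eval ζ := by
      funext ζ
      rw [← Polynomial.coe_evalRingHom, ← RingHom.coe_coe (aeval _), ← RingHom.comp_apply]
      congr 1
      ext i
      · simp
      · simp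
        exact mul_comm _ _
    rw [h1]
    exact Polynomial.differentiable _
  have hb : Bornology.IsBounded (Metric.ball (0 : ℂ) 1) := Metric.isBounded_ball
  refine Complex.norm_le_of_forall_mem_frontier_norm_le (f := fun ζ : ℂ => eval (ζ • b) p) hb
    hd.diffContOnCl (fun ζ hζ => ?_) (z := (l : ℂ)) ?_
  · rw [frontier_ball (0 : ℂ) one_ne_zero, mem_sphere_zero_iff_norm] at hζ
    exact hc _ ⟨ζ, hζ, rfl⟩
  · rw [closure_ball (0 : ℂ) one_ne_zero, mem_closedBall_zero_iff, Complex.norm_real,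
      Real.norm_eq_abs, abs_of_nonneg hl0]
    exact hl1

theorem tr_not : ¬ SumsOn (ZZ tr) := by
  intro h
  set t : ℝ := 1 + Real.sqrt 5 / 2 with ht
  have h5 : Real.sqrt 5 ^ 2 = 5 := Real.sq_sqrt (by norm_num)
  have h50 : 0 ≤ Real.sqrt 5 := Real.sqrt_nonneg _
  have ht1 : (1 + 2 * t) ^ 3 = 32 * t ^ 2 := by
    rw [ht]
    have h6 : Real.sqrt 5 ^ 3 = 5 * Real.sqrt 5 := by
      calc Real.sqrt 5 ^ 3 = Real.sqrt 5 ^ 2 * Real.sqrt 5 := by ring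
        _ = 5 * Real.sqrt 5 := by rw [h5]
    nlinarith
  have ht0 : 1 ≤ t := by
    rw [ht]
    linarith
  obtain ⟨m, p, hp⟩ := h (trN_R t) (fun z _ => by
    rw [trN_ev]
    positivity)
  set b : Fin 2 → ℂ := fun _ => ((Real.sqrt t : ℝ) : ℂ) with hb
  set l : ℝ := Real.sqrt (1 / 2) / Real.sqrt t with hl
  have hst : 0 < Real.sqrt t := Real.sqrt_pos.2 (by linarith)
  have hl0 : 0 ≤ l := div_nonneg (Real.sqrt_nonneg _) hst.le
  have hl1 : l ≤ 1 := by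
    rw [hl, div_le_one hst]
    exact Real.sqrt_le_sqrt (by linarith)
  have hnb : ∀ i, ‖b i‖ ^ 2 = t := by
    intro i
    show ‖((Real.sqrt t : ℝ) : ℂ)‖ ^ 2 = t
    rw [Complex.norm_real, Real.norm_eq_abs, abs_of_pos hst, Real.sq_sqrt (by linarith)]
  have hX : ∀ z ∈ {z : Fin 2 → ℂ | ∃ ζ : ℂ, ‖ζ‖ = 1 ∧ z = ζ • b}, nrm p z ≤ 1 := by
    rintro z ⟨ζ, hζ, rfl⟩
    have hz : ∀ i, ‖(ζ • b) i‖ ^ 2 = t := by
      intro i
      rw [Pi.smul_apply, norm_smul, hζ, one_mul, hnb i]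
    obtain ⟨h1, h2⟩ := trN_mem ht1 (hz 0) (hz 1)
    rw [← hp _ h1, trN_ev, h2, sub_self]
    norm_num
  have ha := nrm_hull zero_le_one hX (trN_hull (b := b) hl0 hl1)
  have hza : ∀ i : Fin 2, ‖((l : ℂ) • b) i‖ ^ 2 = 1 / 2 := by
    intro i
    have e1 : ‖((l : ℂ) • b) i‖ = l * ‖b i‖ := by
      rw [Pi.smul_apply, norm_smul, Complex.norm_real, Real.norm_eq_abs, abs_of_nonneg hl0]
    have e2 : l ^ 2 = (1 / 2) / t := by
      rw [hl, div_pow, Real.sq_sqrt (by norm_num), Real.sq_sqrt (by linarith)]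
    rw [e1, mul_pow, hnb i, e2]
    have : t ≠ 0 := by linarith
    field_simp
  obtain ⟨h1, h2⟩ := trN_mem (t := 1 / 2) (by norm_num) (hza 0) (hza 1)
  rw [← hp _ h1, trN_ev, h2] at ha
  have h4 : (2 * (1 / 2 : ℝ) - 2 * t) < 0 := by
    have h7 : 0 < Real.sqrt 5 := Real.sqrt_pos.2 (by norm_num)
    rw [ht]
    linarith
  have h3 : 0 < (2 * (1 / 2 : ℝ) - 2 * t) ^ 2 := by nlinarith
  linarith

theorem tr_compact : IsCompact (ZZ tr) := by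
  have hcl : IsClosed (ZZ tr) := isClosed_eq (ev_continuous tr) continuous_const
  refine Metric.isCompact_of_isClosed_isBounded hcl ?_
  refine Metric.isBounded_closedBall.subset (s := ZZ tr)
    (t := Metric.closedBall (0 : Fin 2 → ℂ) 3) ?_
  intro z hz
  have h0 : ev tr z = 0 := hz
  rw [tr_ev] at h0
  have hn : nn z = ‖z 0‖ ^ 2 + ‖z 1‖ ^ 2 := by
    unfold nn
    rw [Fin.sum_univ_two]
  have hn0 : 0 ≤ nn z := by
    rw [hn]
    positivity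
  have hn8 : nn z ≤ 8 := by
    by_contra hc
    push Not at hc
    have h1 : 32 * (‖z 0‖ ^ 2 * ‖z 1‖ ^ 2) ≤ 8 * nn z ^ 2 := by
      rw [hn]
      nlinarith [sq_nonneg (‖z 0‖ ^ 2 - ‖z 1‖ ^ 2)]
    have h2 : 8 * nn z ^ 2 ≤ nn z ^ 3 := by
      have : 0 ≤ nn z ^ 2 := sq_nonneg _
      nlinarith
    nlinarith
  rw [Metric.mem_closedBall, dist_zero_right, pi_norm_le_iff_of_nonneg (by norm_num)]
  intro i
  have hi : ‖z i‖ ^ 2 ≤ nn z := by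
    unfold nn
    exact Finset.single_le_sum (f := fun i => ‖z i‖ ^ 2) (fun i _ => sq_nonneg _)
      (Finset.mem_univ i)
  have h9 : ‖z i‖ ^ 2 ≤ 3 ^ 2 := by linarith
  exact le_of_sq_le_sq h9 (by norm_num)

end Pool.Agent.Work.MP_49847a_an
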