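import Pool.Agent.Work.MP_49847a_an.Tr.TrSep
import Pool.Agent.Work.MP_49847a_an.Tr.TrLev
import Pool.Agent.Work.MP_49847a_an.Tr.TrGro
import Pool.Agent.Work.MP_49847a_an.Tr.TrCon
import Pool.Agent.Work.MP_49847a_an.Tr.TrNot
import Pool.Agent.Work.MP_49847a_an.Cp.RMain2

/-!
# A strongly pseudoconvex domain in `ℂ²` whose closure is not polynomially convex

All the other conditions of the criterion hold for it.
-/

namespace Pool.Agent.Work.MP_49847a_an

open MvPolynomial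

theorem tr_ex : ∃ r : MvPolynomial (Fin 2 ⊕ Fin 2) ℝ,
    (∀ z, ev r z = (1 + nn z) ^ 3 - 32 * (‖z 0‖ ^ 2 * ‖z 1‖ ^ 2)) ∧ StronglyPsc r ∧ PosInf r ∧
      Separated r ∧ Growth r ∧ ¬ PolConvex r ∧ ¬ SumsOn (ZZ r) := by
  have hsep : Separated tr := fun a b ha hb hab => tr_sep ha hb hab
  refine ⟨tr, tr_ev, ⟨tr_connected, tr_frontier, tr_compact, tr_regular, tr_levi⟩, tr_posInf,
    hsep, tr_growth, fun hc => ?_, tr_not⟩
  have h1 := (main_s (n := 2) (by norm_num) tr_posInf).1.2 ⟨hc, hsep, tr_levi, tr_growth⟩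
  refine tr_not fun R hR => ?_
  obtain ⟨m, p, H, h⟩ := h1 R hR
  refine ⟨m, p, fun z hz => ?_⟩
  have hz' : ev tr z = 0 := hz
  rw [h z, hz', zero_mul, add_zero]

end Pool.Agent.Work.MP_49847a_an
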