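import Pool.Agent.Work.MP_49847a_an.Tr.TrDefs

/-!
# Module TrA: the polynomial, its polarisation and its derivatives

Proof.  (ev) `‖a‖² = re² + im²` (`Complex.normSq_eq_norm_sq`, `Complex.normSq_apply`).  (pol) by definition of `pol` (`map` of a sum, `eval`):
`((z_i + conj w_i)/2)² + ((z_i - conj w_i)/(2 I))² = z_i conj w_i` (field arithmetic with `I² = -1`).
(zb) `zb_eq`: both sides evaluated at `(z, conj z)` are `ev tr z` (`Complex.mul_conj`).
(dz, dzz) `pderiv` of the formula of `tr_zb` (`Derivation.leibniz`, `Derivation.leibniz_pow`, `pderiv_X_self`, `pderiv_X_of_ne`), and evaluation.  With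
`A = 1 + nn a` and `u = ∑ i, conj(a i) * v i`: see also `Cp/NegEx.lean` for a similar computation (`pd_elr`, `dz_elr`, `dzz_elr`).
(tr_lev) expand `∑ i, ∑ j, dzz i j v_i conj v_j` (`Fin.sum_univ_two`).
-/

namespace Pool.Agent.Work.MP_49847a_an

open MvPolynomial

theorem tr_ev (z : Fin 2 → ℂ) : ev tr z = (1 + nn z) ^ 3 - 32 * (‖z 0‖ ^ 2 * ‖z 1‖ ^ 2) := by
  unfold ev tr nn
  simp only [map_add, map_sum, map_mul, map_sub, map_pow, eval_X, eval_C, Sum.elim_inl,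
    Sum.elim_inr, map_one]
  have h : ∀ i, (z i).re ^ 2 + (z i).im ^ 2 = ‖z i‖ ^ 2 := fun i => by
    rw [← Complex.normSq_eq_norm_sq, Complex.normSq_apply]
    ring
  rw [Finset.sum_congr rfl fun i _ => h i, h 0, h 1]

theorem tr_pol (z w : Fin 2 → ℂ) : pol tr z w =
    (1 + ip z w) ^ 3 - 32 * (z 0 * (starRingEnd ℂ) (w 0) * (z 1 * (starRingEnd ℂ) (w 1))) := by
  unfold pol tr ip
  simp only [map_add, map_sum, map_mul, map_sub, map_pow, eval_X, eval_C, Sum.elim_inl,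
    Sum.elim_inr, map_one, map_X, map_C]
  have h : ∀ i, ((z i + (starRingEnd ℂ) (w i)) / 2) ^ 2 +
      ((z i - (starRingEnd ℂ) (w i)) / (2 * Complex.I)) ^ 2 = z i * (starRingEnd ℂ) (w i) := by
    intro i
    rw [div_pow, div_pow, mul_pow, Complex.I_sq]
    ring
  rw [Finset.sum_congr rfl fun i _ => h i, h 0, h 1]
  norm_num

private theorem nsq (x : ℂ) : ((‖x‖ : ℝ) : ℂ) ^ 2 = x * (starRingEnd ℂ) x := by
  rw [Complex.mul_conj, Complex.normSq_eq_norm_sq]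
  push_cast
  rfl

theorem tr_zb : zb tr = (1 + ∑ i, X (Sum.inl i) * X (Sum.inr i)) ^ 3 -
    C 32 * (X (Sum.inl 0) * X (Sum.inr 0) * (X (Sum.inl 1) * X (Sum.inr 1))) := by
  refine zb_eq fun z => ?_
  rw [tr_ev]
  simp only [map_add, map_sum, map_mul, map_sub, map_pow, eval_X, eval_C, Sum.elim_inl,
    Sum.elim_inr, map_one, nn]
  push_cast
  simp only [nsq]

private theorem pd0 : pderiv (Sum.inl 0) (zb tr) =
    3 * (1 + ∑ i, X (Sum.inl i) * X (Sum.inr i)) ^ 2 * X (Sum.inr 0) -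
      C 32 * (X (Sum.inr 0) * (X (Sum.inl 1) * X (Sum.inr 1))) := by
  rw [tr_zb]
  simp only [map_sub, map_add, Derivation.leibniz, Derivation.leibniz_pow, Fin.sum_univ_two,
    pderiv_X, pderiv_C, smul_eq_mul, pderiv_one, Pi.single_apply]
  simp
  ring

private theorem pd1 : pderiv (Sum.inl 1) (zb tr) =
    3 * (1 + ∑ i, X (Sum.inl i) * X (Sum.inr i)) ^ 2 * X (Sum.inr 1) -
      C 32 * (X (Sum.inl 0) * X (Sum.inr 0) * X (Sum.inr 1)) := by
  rw [tr_zb]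
  simp only [map_sub, map_add, Derivation.leibniz, Derivation.leibniz_pow, Fin.sum_univ_two,
    pderiv_X, pderiv_C, smul_eq_mul, pderiv_one, Pi.single_apply]
  simp
  ring

theorem tr_dz (a v : Fin 2 → ℂ) : ∑ i, dz tr i a * v i =
    3 * (1 + ((nn a : ℝ) : ℂ)) ^ 2 * ∑ i, (starRingEnd ℂ) (a i) * v i -
      32 * ((starRingEnd ℂ) (a 0) * (starRingEnd ℂ) (a 1)) * (a 1 * v 0 + a 0 * v 1) := by
  have hn : ((nn a : ℝ) : ℂ) = a 0 * (starRingEnd ℂ) (a 0) + a 1 * (starRingEnd ℂ) (a 1) := by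
    unfold nn
    push_cast
    rw [Fin.sum_univ_two, nsq, nsq]
  unfold dz
  rw [Fin.sum_univ_two, pd0, pd1, hn]
  simp only [map_sub, map_add, map_mul, map_pow, map_one, eval_X, eval_C, Sum.elim_inl,
    Sum.elim_inr, Fin.sum_univ_two, map_ofNat]
  ring

private theorem pdd00 : pderiv (Sum.inr 0) (pderiv (Sum.inl 0) (zb tr)) =
    6 * (1 + ∑ i, X (Sum.inl i) * X (Sum.inr i)) * X (Sum.inl 0) * X (Sum.inr 0) +
    3 * (1 + ∑ i, X (Sum.inl i) * X (Sum.inr i)) ^ 2 -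
      C 32 * (X (Sum.inl 1) * X (Sum.inr 1)) := by
  rw [pd0]
  have h3 : (3 : MvPolynomial (Fin 2 ⊕ Fin 2) ℂ) = C 3 := by rw [map_ofNat]
  rw [h3]
  simp only [map_sub, map_add, Derivation.leibniz, Derivation.leibniz_pow, Fin.sum_univ_two,
    pderiv_X, pderiv_C, smul_eq_mul, pderiv_one, Pi.single_apply]
  simp
  rw [← h3]
  ring

private theorem pdd01 : pderiv (Sum.inr 1) (pderiv (Sum.inl 0) (zb tr)) =
    6 * (1 + ∑ i, X (Sum.inl i) * X (Sum.inr i)) * X (Sum.inl 1) * X (Sum.inr 0) -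
      C 32 * (X (Sum.inl 1) * X (Sum.inr 0)) := by
  rw [pd0]
  have h3 : (3 : MvPolynomial (Fin 2 ⊕ Fin 2) ℂ) = C 3 := by rw [map_ofNat]
  rw [h3]
  simp only [map_sub, map_add, Derivation.leibniz, Derivation.leibniz_pow, Fin.sum_univ_two,
    pderiv_X, pderiv_C, smul_eq_mul, pderiv_one, Pi.single_apply]
  simp
  rw [← h3]
  ring

private theorem pdd10 : pderiv (Sum.inr 0) (pderiv (Sum.inl 1) (zb tr)) =
    6 * (1 + ∑ i, X (Sum.inl i) * X (Sum.inr i)) * X (Sum.inl 0) * X (Sum.inr 1) -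
      C 32 * (X (Sum.inl 0) * X (Sum.inr 1)) := by
  rw [pd1]
  have h3 : (3 : MvPolynomial (Fin 2 ⊕ Fin 2) ℂ) = C 3 := by rw [map_ofNat]
  rw [h3]
  simp only [map_sub, map_add, Derivation.leibniz, Derivation.leibniz_pow, Fin.sum_univ_two,
    pderiv_X, pderiv_C, smul_eq_mul, pderiv_one, Pi.single_apply]
  simp
  rw [← h3]
  ring

private theorem pdd11 : pderiv (Sum.inr 1) (pderiv (Sum.inl 1) (zb tr)) =
    6 * (1 + ∑ i, X (Sum.inl i) * X (Sum.inr i)) * X (Sum.inl 1) * X (Sum.inr 1) +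
    3 * (1 + ∑ i, X (Sum.inl i) * X (Sum.inr i)) ^ 2 -
      C 32 * (X (Sum.inl 0) * X (Sum.inr 0)) := by
  rw [pd1]
  have h3 : (3 : MvPolynomial (Fin 2 ⊕ Fin 2) ℂ) = C 3 := by rw [map_ofNat]
  rw [h3]
  simp only [map_sub, map_add, Derivation.leibniz, Derivation.leibniz_pow, Fin.sum_univ_two,
    pderiv_X, pderiv_C, smul_eq_mul, pderiv_one, Pi.single_apply]
  simp
  rw [← h3]
  ring

theorem tr_lev (a v : Fin 2 → ℂ) :
    (∑ i, ∑ j, dzz tr i j a * v i * (starRingEnd ℂ) (v j)).re =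
    3 * (1 + nn a) ^ 2 * nn v + 6 * (1 + nn a) * ‖∑ i, (starRingEnd ℂ) (a i) * v i‖ ^ 2 -
      32 * ‖a 1 * v 0 + a 0 * v 1‖ ^ 2 := by
  have key : ∑ i, ∑ j, dzz tr i j a * v i * (starRingEnd ℂ) (v j) =
      ((3 * (1 + nn a) ^ 2 * nn v + 6 * (1 + nn a) * ‖∑ i, (starRingEnd ℂ) (a i) * v i‖ ^ 2 -
      32 * ‖a 1 * v 0 + a 0 * v 1‖ ^ 2 : ℝ) : ℂ) := by
    unfold dzz nn
    simp only [Fin.sum_univ_two, pdd00, pdd01, pdd10, pdd11]
    push_cast
    simp only [nsq, map_sub, map_add, map_mul, map_pow, map_one, eval_X, eval_C, Sum.elim_inl,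
      Sum.elim_inr, Fin.sum_univ_two, map_ofNat, Complex.conj_conj]
    ring
  rw [key, Complex.ofReal_re]

end Pool.Agent.Work.MP_49847a_an
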