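import Pool.Agent.Work.MP_49847a_an.Cp.RDef
import Pool.Agent.Work.MP_49847a_an.Sg.Kc

/-!
# The domain `(1 + |z_0|² + |z_1|²)³ < 32 |z_0|² |z_1|²` in `ℂ²`: definition
-/

namespace Pool.Agent.Work.MP_49847a_an

open MvPolynomial

/-- the real polynomial `(1 + |z_0|² + |z_1|²)³ - 32 |z_0|² |z_1|²` on `ℂ²` -/
noncomputable def tr : MvPolynomial (Fin 2 ⊕ Fin 2) ℝ :=
  (1 + ∑ i, (X (Sum.inl i) ^ 2 + X (Sum.inr i) ^ 2)) ^ 3 -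
    C 32 * ((X (Sum.inl 0) ^ 2 + X (Sum.inr 0) ^ 2) * (X (Sum.inl 1) ^ 2 + X (Sum.inr 1) ^ 2))

end Pool.Agent.Work.MP_49847a_an
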