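import Pool.Agent.Work.MP_49847a_an.Tr.TrA

/-!
# Module TrSep: no two points of `{tr ≤ 0}` are conjugate

Proof.  Let `x_i = ‖a_i‖`, `y_i = ‖b_i‖`, `s_i = a_i conj b_i`, `‖s_i‖ = x_i y_i`.  `(1 + x_0² + x_1²)³ ≤ 32 x_0² x_1²`, so `x_i > 0`; the same for `y`.  By Cauchy-Schwarz
`(1 + x_0 y_0 + x_1 y_1)² ≤ (1 + x_0² + x_1²)(1 + y_0² + y_1²)`, so
`(‖1 + s_0 + s_1‖³)² ≤ ((1 + x_0 y_0 + x_1 y_1)²)³ ≤ (1 + x_0² + x_1²)³ (1 + y_0² + y_1²)³ ≤ 32² x_0² x_1² y_0² y_1² = (32 ‖s_0 s_1‖)²`.  By hypothesis the first and the last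
member are equal, so all are equal.  Equality in Cauchy-Schwarz:
`(1 + x_0² + x_1²)(1 + y_0² + y_1²) - (1 + x_0 y_0 + x_1 y_1)² = (x_0 - y_0)² + (x_1 - y_1)² + (x_0 y_1 - x_1 y_0)²`, so `x = y`.
Equality `‖1 + s_0 + s_1‖ = 1 + ‖s_0‖ + ‖s_1‖` gives `s_i = ‖s_i‖` (compare real parts: `Re s_i ≤ ‖s_i‖`; `‖1 + s_0 + s_1‖² = …`; one way: if
`‖1 + w‖ = 1 + ‖w‖` with `w = s_0 + s_1` then `w = ‖w‖`, and `‖w‖ = ‖s_0‖ + ‖s_1‖`, so `Re s_0 + Re s_1 = ‖s_0‖ + ‖s_1‖`).  So `a_i conj b_i = x_i² = b_i conj b_i`, `b_i ≠ 0`, `a_i = b_i`.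
-/

namespace Pool.Agent.Work.MP_49847a_an

open MvPolynomial

private theorem eq_norm_of_norm_one_add {s : ℂ} (h : ‖1 + s‖ = 1 + ‖s‖) : s = ((‖s‖ : ℝ) : ℂ) := by
  have h1 : ‖1 + s‖ ^ 2 = (1 + s.re) ^ 2 + s.im ^ 2 := by
    rw [← Complex.normSq_eq_norm_sq, Complex.normSq_apply]
    simp only [Complex.add_re, Complex.one_re, Complex.add_im, Complex.one_im]
    ring
  have h2 : ‖s‖ ^ 2 = s.re ^ 2 + s.im ^ 2 := by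
    rw [← Complex.normSq_eq_norm_sq, Complex.normSq_apply]
    ring
  rw [h] at h1
  have h3 : s.re = ‖s‖ := by nlinarith
  have h4 : s.im = 0 := by
    rw [← h3] at h2
    have : s.im ^ 2 = 0 := by linarith
    exact pow_eq_zero_iff (two_ne_zero) |>.1 this
  apply Complex.ext
  · rw [Complex.ofReal_re]; exact h3
  · rw [Complex.ofReal_im]; exact h4

private theorem eq_of_mul_conj {a b : ℂ} (hb : b ≠ 0) (hn : ‖a‖ = ‖b‖)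
    (h : a * (starRingEnd ℂ) b = ((‖a * (starRingEnd ℂ) b‖ : ℝ) : ℂ)) : a = b := by
  have h1 : b * (starRingEnd ℂ) b = ((‖b‖ ^ 2 : ℝ) : ℂ) := by
    rw [Complex.mul_conj, Complex.normSq_eq_norm_sq]
  have h2 : ‖a * (starRingEnd ℂ) b‖ = ‖b‖ ^ 2 := by
    rw [norm_mul, Complex.norm_conj, hn]; ring
  rw [h2, ← h1] at h
  have h3 : (starRingEnd ℂ) b ≠ 0 := by
    intro h4
    exact hb ((map_eq_zero _).1 h4)
  exact mul_right_cancel₀ h3 h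

theorem tr_sep {a b : Fin 2 → ℂ} (ha : ev tr a ≤ 0) (hb : ev tr b ≤ 0) (h : pol tr a b = 0) :
    a = b := by
  rw [tr_ev] at ha hb
  rw [tr_pol] at h
  have hA : nn a = ‖a 0‖ ^ 2 + ‖a 1‖ ^ 2 := by
    simp only [nn, Fin.sum_univ_two]
  have hB : nn b = ‖b 0‖ ^ 2 + ‖b 1‖ ^ 2 := by
    simp only [nn, Fin.sum_univ_two]
  have hI : ip a b = a 0 * (starRingEnd ℂ) (b 0) + a 1 * (starRingEnd ℂ) (b 1) := by
    simp only [ip, Fin.sum_univ_two]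
  rw [hA] at ha
  rw [hB] at hb
  rw [hI] at h
  set s0 : ℂ := a 0 * (starRingEnd ℂ) (b 0) with hs0
  set s1 : ℂ := a 1 * (starRingEnd ℂ) (b 1) with hs1
  have n0 : ‖s0‖ = ‖a 0‖ * ‖b 0‖ := by rw [hs0, norm_mul, Complex.norm_conj]
  have n1 : ‖s1‖ = ‖a 1‖ * ‖b 1‖ := by rw [hs1, norm_mul, Complex.norm_conj]
  have x0 : 0 ≤ ‖a 0‖ := norm_nonneg _
  have x1 : 0 ≤ ‖a 1‖ := norm_nonneg _
  have y0 : 0 ≤ ‖b 0‖ := norm_nonneg _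
  have y1 : 0 ≤ ‖b 1‖ := norm_nonneg _
  have hk : ‖1 + (s0 + s1)‖ ^ 3 = 32 * (‖s0‖ * ‖s1‖) := by
    have h1 : (1 + (s0 + s1)) ^ 3 = 32 * (s0 * s1) := by linear_combination h
    rw [← norm_pow, h1, norm_mul, norm_mul]
    norm_num
  have t0 : ‖1 + (s0 + s1)‖ ≤ ‖1 + s0‖ + ‖s1‖ := by
    rw [← add_assoc]; exact norm_add_le _ _
  have t1 : ‖1 + (s0 + s1)‖ ≤ ‖1 + s1‖ + ‖s0‖ := by
    have : 1 + (s0 + s1) = (1 + s1) + s0 := by ring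
    rw [this]; exact norm_add_le _ _
  have t2 : ‖1 + s0‖ ≤ 1 + ‖s0‖ := by
    have := norm_add_le (1 : ℂ) s0
    rwa [norm_one] at this
  have t3 : ‖1 + s1‖ ≤ 1 + ‖s1‖ := by
    have := norm_add_le (1 : ℂ) s1
    rwa [norm_one] at this
  set N : ℝ := ‖1 + (s0 + s1)‖ with hN
  have N0 : 0 ≤ N := norm_nonneg _
  set P : ℝ := 1 + ‖s0‖ + ‖s1‖ with hP
  have NP : N ≤ P := by linarith
  have P1 : 1 ≤ P := by
    have := norm_nonneg s0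
    have := norm_nonneg s1
    linarith
  set A : ℝ := 1 + (‖a 0‖ ^ 2 + ‖a 1‖ ^ 2) with hAA
  set B : ℝ := 1 + (‖b 0‖ ^ 2 + ‖b 1‖ ^ 2) with hBB
  have A0 : 1 ≤ A := by
    have := sq_nonneg ‖a 0‖
    have := sq_nonneg ‖a 1‖
    linarith
  have B0 : 1 ≤ B := by
    have := sq_nonneg ‖b 0‖
    have := sq_nonneg ‖b 1‖
    linarith
  have hcs : A * B - P ^ 2 = (‖a 0‖ - ‖b 0‖) ^ 2 + (‖a 1‖ - ‖b 1‖) ^ 2 +
      (‖a 0‖ * ‖b 1‖ - ‖a 1‖ * ‖b 0‖) ^ 2 := by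
    rw [hP, n0, n1, hAA, hBB]; ring
  have hPAB : P ^ 2 ≤ A * B := by
    have e1 := sq_nonneg (‖a 0‖ - ‖b 0‖)
    have e2 := sq_nonneg (‖a 1‖ - ‖b 1‖)
    have e3 := sq_nonneg (‖a 0‖ * ‖b 1‖ - ‖a 1‖ * ‖b 0‖)
    linarith
  have ha' : A ^ 3 ≤ 32 * (‖a 0‖ ^ 2 * ‖a 1‖ ^ 2) := by linarith
  have hb' : B ^ 3 ≤ 32 * (‖b 0‖ ^ 2 * ‖b 1‖ ^ 2) := by linarith
  have hup : (A * B) ^ 3 ≤ (N ^ 3) ^ 2 := by
    have e1 : A ^ 3 * B ^ 3 ≤ (32 * (‖a 0‖ ^ 2 * ‖a 1‖ ^ 2)) * (32 * (‖b 0‖ ^ 2 * ‖b 1‖ ^ 2)) :=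
      mul_le_mul ha' hb' (by positivity) (by positivity)
    rw [hk, n0, n1, mul_pow]
    calc A ^ 3 * B ^ 3 ≤ _ := e1
      _ = _ := by ring
  have hNPs : N ^ 2 ≤ P ^ 2 := by gcongr
  have hABN : A * B ≤ N ^ 2 := by
    have e1 : (A * B) ^ 3 ≤ (N ^ 2) ^ 3 := by
      calc (A * B) ^ 3 ≤ (N ^ 3) ^ 2 := hup
        _ = _ := by ring
    exact le_of_pow_le_pow_left₀ (by norm_num) (by positivity) e1
  have hNP : N = P := by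
    apply le_antisymm NP
    have : P ^ 2 ≤ N ^ 2 := le_trans hPAB hABN
    exact le_of_pow_le_pow_left₀ (by norm_num) N0 this
  have hABP : A * B = P ^ 2 := by
    apply le_antisymm _ hPAB
    rw [← hNP]; exact hABN
  have q0 : ‖1 + s0‖ = 1 + ‖s0‖ := by linarith
  have q1 : ‖1 + s1‖ = 1 + ‖s1‖ := by linarith
  have r0 : ‖a 0‖ = ‖b 0‖ := by
    have e1 := sq_nonneg (‖a 0‖ - ‖b 0‖)
    have e2 := sq_nonneg (‖a 1‖ - ‖b 1‖)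
    have e3 := sq_nonneg (‖a 0‖ * ‖b 1‖ - ‖a 1‖ * ‖b 0‖)
    have : (‖a 0‖ - ‖b 0‖) ^ 2 = 0 := by linarith
    have := pow_eq_zero_iff (two_ne_zero) |>.1 this
    linarith
  have r1 : ‖a 1‖ = ‖b 1‖ := by
    have e1 := sq_nonneg (‖a 0‖ - ‖b 0‖)
    have e2 := sq_nonneg (‖a 1‖ - ‖b 1‖)
    have e3 := sq_nonneg (‖a 0‖ * ‖b 1‖ - ‖a 1‖ * ‖b 0‖)
    have : (‖a 1‖ - ‖b 1‖) ^ 2 = 0 := by linarith
    have := pow_eq_zero_iff (two_ne_zero) |>.1 this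
    linarith
  have b0 : b 0 ≠ 0 := by
    intro hz
    rw [hz, norm_zero] at hb'
    have : (0 : ℝ) < B ^ 3 := by positivity
    norm_num at hb'
    linarith
  have b1 : b 1 ≠ 0 := by
    intro hz
    rw [hz, norm_zero] at hb'
    have : (0 : ℝ) < B ^ 3 := by positivity
    norm_num at hb'
    linarith
  funext i
  fin_cases i
  · exact eq_of_mul_conj b0 r0 (eq_norm_of_norm_one_add q0)
  · exact eq_of_mul_conj b1 r1 (eq_norm_of_norm_one_add q1)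

end Pool.Agent.Work.MP_49847a_an
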